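import Mathlib

/-!
# Wavelength capacities on the figure-eight graph

A standard quantum graph with rationally independent edge lengths and an interior vertex at which
the wavelength capacity of every generic eigenfunction is equal to `2`: the figure-eight graph,
one vertex of degree four carrying two loops.
-/

open MeasureTheory Filter Topology Set
open scoped BigOperators

namespace Pool.Agent.Results.MP_ecbb05_mp.FigureEight

/-- A finite metric graph with vertex set `V` and edge set `E`; loops and parallel edges are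
allowed. The edge `e` is the interval `[0, len e]`, its end `0` is glued to the vertex `src e` and
its end `len e` to the vertex `tgt e`. -/
structure MetricGraph (V E : Type) where
  /-- the vertex at the beginning of an edge -/
  src : E → V
  /-- the vertex at the end of an edge -/
  tgt : E → V
  /-- the length of an edge -/
  len : E → ℝ
  /-- edge lengths are positive -/
  len_pos : ∀ e, 0 < len e

namespace MetricGraph

variable {V E : Type} [Fintype V] [Fintype E]

/-- The degree of a vertex; a loop is counted twice. -/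
noncomputable def deg (G : MetricGraph V E) (v : V) : ℕ :=
  {e : E | G.src e = v}.ncard + {e : E | G.tgt e = v}.ncard

/-- The graph is connected. -/
def Connected (G : MetricGraph V E) : Prop :=
  ∀ v w : V, Relation.EqvGen (fun a b => ∃ e, G.src e = a ∧ G.tgt e = b) v w

open Classical in
/-- The eigenfunctions (and zero) of the standard (Neumann-Kirchhoff) operator `f ↦ -f''` for the
eigenvalue `k ^ 2`. On every edge an eigenfunction is the restriction to `[0, len e]` of a unique
solution of `f'' = -k² f` on the line, and it is represented by this solution: `F e` is a twice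
differentiable function on the line with `(F e)'' = -k² (F e)`, the values at the ends of the
edges that meet in a vertex coincide, and at every vertex the outgoing derivatives sum to zero. -/
def eigenspace (G : MetricGraph V E) (k : ℝ) : Submodule ℝ (E → ℝ → ℝ) where
  carrier := {F | (∀ e x, HasDerivAt (F e) (deriv (F e) x) x) ∧
    (∀ e x, HasDerivAt (deriv (F e)) (-(k ^ 2) * F e x) x) ∧
    (∃ φ : V → ℝ, ∀ e, F e 0 = φ (G.src e) ∧ F e (G.len e) = φ (G.tgt e)) ∧
    ∀ w : V, ∑ e, ((if G.src e = w then deriv (F e) 0 else 0)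
      - (if G.tgt e = w then deriv (F e) (G.len e) else 0)) = 0}
  add_mem' := by
    rintro F H ⟨hF1, hF2, ⟨φ, hφ⟩, hF4⟩ ⟨hH1, hH2, ⟨ψ, hψ⟩, hH4⟩
    have hd : ∀ e x, HasDerivAt ((F + H) e) (deriv (F e) x + deriv (H e) x) x := fun e x =>
      (hF1 e x).add (hH1 e x)
    have hd' : ∀ e x, deriv ((F + H) e) x = deriv (F e) x + deriv (H e) x := fun e x =>
      (hd e x).deriv
    have hd'' : ∀ e, deriv ((F + H) e) = deriv (F e) + deriv (H e) := fun e => funext (hd' e)
    refine ⟨fun e x => by rw [hd' e x]; exact hd e x, fun e x => ?_, ⟨φ + ψ, fun e => ?_⟩,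
      fun w => ?_⟩
    · rw [hd'' e]
      refine ((hF2 e x).add (hH2 e x)).congr_deriv ?_
      simp only [Pi.add_apply]; ring
    · simp only [Pi.add_apply]
      exact ⟨by rw [(hφ e).1, (hψ e).1], by rw [(hφ e).2, (hψ e).2]⟩
    · calc ∑ e, ((if G.src e = w then deriv ((F + H) e) 0 else 0)
            - (if G.tgt e = w then deriv ((F + H) e) (G.len e) else 0))
          = ∑ e, ((if G.src e = w then deriv (F e) 0 else 0)
            - (if G.tgt e = w then deriv (F e) (G.len e) else 0))
            + ∑ e, ((if G.src e = w then deriv (H e) 0 else 0)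
            - (if G.tgt e = w then deriv (H e) (G.len e) else 0)) := by
            rw [← Finset.sum_add_distrib]
            refine Finset.sum_congr rfl fun e _ => ?_
            simp only [hd']
            split_ifs <;> ring
        _ = 0 := by rw [hF4 w, hH4 w, add_zero]
  zero_mem' := by
    refine ⟨fun e x => ?_, fun e x => ?_, ⟨0, fun e => ⟨rfl, rfl⟩⟩, fun w => ?_⟩
    · have : deriv ((0 : E → ℝ → ℝ) e) x = 0 := by simp
      rw [this]
      exact hasDerivAt_const x (0 : ℝ)
    · have : deriv ((0 : E → ℝ → ℝ) e) = fun _ => 0 := by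
        funext y; simp
      rw [this]
      have h0 : -(k ^ 2) * (0 : E → ℝ → ℝ) e x = 0 := by simp
      rw [h0]
      exact hasDerivAt_const x (0 : ℝ)
    · simp
  smul_mem' := by
    rintro c F ⟨hF1, hF2, ⟨φ, hφ⟩, hF4⟩
    have hd : ∀ e x, HasDerivAt ((c • F) e) (c * deriv (F e) x) x := fun e x =>
      (hF1 e x).const_mul c
    have hd' : ∀ e x, deriv ((c • F) e) x = c * deriv (F e) x := fun e x => (hd e x).deriv
    have hd'' : ∀ e, deriv ((c • F) e) = fun x => c * deriv (F e) x := fun e => funext (hd' e)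
    refine ⟨fun e x => by rw [hd' e x]; exact hd e x, fun e x => ?_, ⟨c • φ, fun e => ?_⟩,
      fun w => ?_⟩
    · rw [hd'' e]
      refine ((hF2 e x).const_mul c).congr_deriv ?_
      simp only [Pi.smul_apply, smul_eq_mul]; ring
    · simp only [Pi.smul_apply, smul_eq_mul]
      exact ⟨by rw [(hφ e).1], by rw [(hφ e).2]⟩
    · calc ∑ e, ((if G.src e = w then deriv ((c • F) e) 0 else 0)
            - (if G.tgt e = w then deriv ((c • F) e) (G.len e) else 0))
          = c * ∑ e, ((if G.src e = w then deriv (F e) 0 else 0)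
            - (if G.tgt e = w then deriv (F e) (G.len e) else 0)) := by
            rw [Finset.mul_sum]
            refine Finset.sum_congr rfl fun e _ => ?_
            simp only [hd']
            split_ifs <;> ring
        _ = 0 := by rw [hF4 w, mul_zero]

/-- `κ` lists the square roots `0 ≤ k₀ ≤ k₁ ≤ ⋯` of the eigenvalues, in nondecreasing order and
repeated according to multiplicity. -/
structure IsSpectrum (G : MetricGraph V E) (κ : ℕ → ℝ) : Prop where
  mono : Monotone κ
  nonneg : ∀ n, 0 ≤ κ n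
  finiteDimensional : ∀ k, 0 ≤ k → FiniteDimensional ℝ (G.eigenspace k)
  finite : ∀ k, 0 ≤ k → {n | κ n = k}.Finite
  mult : ∀ k, 0 ≤ k → {n | κ n = k}.ncard = Module.finrank ℝ (G.eigenspace k)

/-- The set of the indices `n` for which the `n`-th eigenfunction is generic: the eigenvalue is
simple, the eigenfunction vanishes at no vertex and none of its outgoing derivatives at a vertex of
degree at least three vanishes. (Since the eigenvalue is simple, these conditions do not depend on
the choice of the eigenfunction.) -/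
def generic (G : MetricGraph V E) (κ : ℕ → ℝ) : Set ℕ :=
  {n | Module.finrank ℝ (G.eigenspace (κ n)) = 1 ∧ ∀ F ∈ G.eigenspace (κ n), F ≠ 0 →
    (∀ e, F e 0 ≠ 0 ∧ F e (G.len e) ≠ 0) ∧
    ∀ e, (3 ≤ G.deg (G.src e) → deriv (F e) 0 ≠ 0) ∧
      (3 ≤ G.deg (G.tgt e) → deriv (F e) (G.len e) ≠ 0)}

/-- The Neumann points of `F` in the interior of the edge `e`. -/
def neumannPoints (G : MetricGraph V E) (F : E → ℝ → ℝ) (e : E) : Set ℝ :=
  {x ∈ Ioo 0 (G.len e) | deriv (F e) x = 0}

/-- Two vertices lie in the same Neumann domain of `F`: they are joined by edges without Neumann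
points. -/
def SameDomain (G : MetricGraph V E) (F : E → ℝ → ℝ) (v w : V) : Prop :=
  Relation.EqvGen (fun a b => ∃ e, G.src e = a ∧ G.tgt e = b ∧ G.neumannPoints F e = ∅) v w

open Classical in
/-- The total length of the Neumann domain of `F` containing the vertex `v`: every edge without
Neumann points whose ends belong to the domain contributes its length, every other edge
contributes its initial piece up to the first Neumann point if its beginning belongs to the domain,
and its final piece after the last Neumann point if its end belongs to the domain. -/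
noncomputable def domainLength (G : MetricGraph V E) (F : E → ℝ → ℝ) (v : V) : ℝ :=
  ∑ e, if G.neumannPoints F e = ∅ then (if G.SameDomain F v (G.src e) then G.len e else 0)
    else (if G.SameDomain F v (G.src e) then sInf (G.neumannPoints F e) else 0)
      + (if G.SameDomain F v (G.tgt e) then G.len e - sSup (G.neumannPoints F e) else 0)

/-- The set of the generic indices `n` for which the wavelength capacity
`ρ⁽ᵛ⁾(n) = kₙ |Ωₙ⁽ᵛ⁾| / π` lies in `B`. -/
def capacityIn (G : MetricGraph V E) (κ : ℕ → ℝ) (v : V) (B : Set ℝ) : Set ℕ :=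
  {n ∈ G.generic κ | ∀ F ∈ G.eigenspace (κ n), F ≠ 0 → κ n * G.domainLength F v / Real.pi ∈ B}

/-- The set `A` of generic indices has density `d` in the set of all generic indices. -/
def HasDensity (G : MetricGraph V E) (κ : ℕ → ℝ) (A : Set ℕ) (d : ℝ) : Prop :=
  Tendsto (fun N : ℕ => ({n | n ∈ A ∧ n ≤ N}.ncard : ℝ) / {n | n ∈ G.generic κ ∧ n ≤ N}.ncard)
    atTop (𝓝 d)

end MetricGraph

/-- The figure-eight graph: one vertex and two loops of lengths `ℓ false` and `ℓ true`. -/
def figureEight (ℓ : Bool → ℝ) (hℓ : ∀ b, 0 < ℓ b) : MetricGraph Unit Bool where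
  src := fun _ => ()
  tgt := fun _ => ()
  len := ℓ
  len_pos := hℓ

section Proof

/-! ### Enumerating a locally finite set with multiplicities -/

lemma exists_enum (d : ℝ → ℕ) (S : Set ℝ) (hS : S = {y | 0 ≤ y ∧ d y ≠ 0})
    (hfin : ∀ x, (S ∩ Iic x).Finite) (hinf : S.Infinite) :
    ∃ κ : ℕ → ℝ, Monotone κ ∧ (∀ n, 0 ≤ κ n) ∧
      ∀ x, 0 ≤ x → {n | κ n = x}.Finite ∧ {n | κ n = x}.ncard = d x := by
  classical
  set N : ℝ → ℕ := fun x => ∑ y ∈ (hfin x).toFinset, d y with hN
  have hmono : Monotone N := by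
    intro x x' hxx
    refine Finset.sum_le_sum_of_subset ?_
    intro y hy
    simp only [Set.Finite.mem_toFinset, mem_inter_iff, mem_Iic] at hy ⊢
    exact ⟨hy.1, hy.2.trans hxx⟩
  have hneg : ∀ x, x < 0 → N x = 0 := by
    intro x hx
    refine Finset.sum_eq_zero fun y hy => ?_
    simp only [Set.Finite.mem_toFinset, mem_inter_iff, mem_Iic] at hy
    rw [hS] at hy
    exact absurd (hy.1.1.trans hy.2) (not_le.mpr hx)
  have hright : ∀ x, ∃ x', x < x' ∧ N x' = N x := by
    intro x
    have hf : (S ∩ Ioc x (x + 1)).Finite :=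
      (hfin (x + 1)).subset fun y hy => ⟨hy.1, hy.2.2⟩
    have : ∃ x', x < x' ∧ x' ≤ x + 1 ∧ ∀ y ∈ S ∩ Ioc x (x + 1), x' < y := by
      rcases (S ∩ Ioc x (x + 1)).eq_empty_or_nonempty with he | hne
      · exact ⟨x + 1, by linarith, le_rfl, by simp [he]⟩
      · obtain ⟨m, hm, hm'⟩ := hf.exists_minimalFor id _ hne
        have hle : ∀ y ∈ S ∩ Ioc x (x + 1), m ≤ y := by
          intro y hy
          by_contra hlt
          push Not at hlt
          exact absurd (hm' hy hlt.le) (not_le.mpr hlt)
        have := hm.2.1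
        have := hm.2.2
        refine ⟨(x + m) / 2, by linarith, by linarith, fun y hy => ?_⟩
        have := hle y hy
        linarith
    obtain ⟨x', h1, h2, h3⟩ := this
    refine ⟨x', h1, ?_⟩
    have : (hfin x').toFinset = (hfin x).toFinset := by
      ext y
      simp only [Set.Finite.mem_toFinset, mem_inter_iff, mem_Iic]
      constructor
      · rintro ⟨hy, hyx⟩
        refine ⟨hy, ?_⟩
        by_contra hlt
        push Not at hlt
        have := h3 y ⟨hy, hlt, hyx.trans h2⟩
        linarith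
      · rintro ⟨hy, hyx⟩
        exact ⟨hy, hyx.trans h1.le⟩
    simp only [hN, this]
  have hunb : ∀ n, ∃ x, n < N x := by
    intro n
    obtain ⟨T, hT, hTc⟩ := hinf.exists_subset_card_eq (n + 1)
    have hne : T.Nonempty := by
      rw [← Finset.card_pos, hTc]; omega
    refine ⟨T.max' hne, ?_⟩
    have hsub : T ⊆ (hfin (T.max' hne)).toFinset := by
      intro y hy
      simp only [Set.Finite.mem_toFinset, mem_inter_iff, mem_Iic]
      exact ⟨hT hy, T.le_max' y hy⟩
    have h1 : T.card ≤ ∑ y ∈ T, d y := by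
      rw [Finset.card_eq_sum_ones]
      refine Finset.sum_le_sum fun y hy => ?_
      have := hT hy
      rw [hS] at this
      exact Nat.one_le_iff_ne_zero.mpr this.2
    have h2 : ∑ y ∈ T, d y ≤ N (T.max' hne) := Finset.sum_le_sum_of_subset hsub
    omega
  set κ : ℕ → ℝ := fun n => sInf {x | n < N x} with hκ
  have hbdd : ∀ n, BddBelow {x | n < N x} := by
    intro n
    refine ⟨0, fun x hx => ?_⟩
    by_contra hlt
    push Not at hlt
    simp only [mem_ofPred_eq, hneg x hlt] at hx
    omega
  have hkey : ∀ n x, κ n ≤ x ↔ n < N x := by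
    intro n x
    constructor
    · intro h
      obtain ⟨x', h1, h2⟩ := hright x
      obtain ⟨z, hz, hzx⟩ := exists_lt_of_csInf_lt (hunb n) (lt_of_le_of_lt h h1)
      rw [← h2]
      exact lt_of_lt_of_le hz (hmono hzx.le)
    · intro h
      exact csInf_le (hbdd n) h
  refine ⟨κ, ?_, ?_, ?_⟩
  · intro n m hnm
    rw [hkey]
    exact lt_of_le_of_lt hnm ((hkey m _).mp le_rfl)
  · intro n
    refine le_csInf (hunb n) fun x hx => ?_
    by_contra hlt
    push Not at hlt
    simp only [mem_ofPred_eq, hneg x hlt] at hx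
    omega
  · intro x hx
    have hfx : (S ∩ Iio x).Finite := (hfin x).subset fun y hy => ⟨hy.1, (mem_Iio.mp hy.2).le⟩
    set M : ℕ := ∑ y ∈ hfx.toFinset, d y with hM
    have hle : ∀ y, y < x → N y ≤ M := by
      intro y hy
      refine Finset.sum_le_sum_of_subset ?_
      intro z hz
      simp only [Set.Finite.mem_toFinset, mem_inter_iff, mem_Iic, mem_Iio] at hz ⊢
      exact ⟨hz.1, lt_of_le_of_lt hz.2 hy⟩
    have hex : ∃ y, y < x ∧ N y = M := by
      rcases (S ∩ Iio x).eq_empty_or_nonempty with he | hne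
      · refine ⟨x - 1, by linarith, le_antisymm (hle _ (by linarith)) ?_⟩
        have : M = 0 := by
          rw [hM]
          refine Finset.sum_eq_zero fun y hy => ?_
          simp only [Set.Finite.mem_toFinset] at hy
          rw [he] at hy
          exact absurd hy (by simp)
        omega
      · obtain ⟨m, hm, hm'⟩ := hfx.exists_maximalFor id _ hne
        refine ⟨m, hm.2, le_antisymm (hle _ hm.2) ?_⟩
        refine Finset.sum_le_sum_of_subset ?_
        intro z hz
        simp only [Set.Finite.mem_toFinset, mem_inter_iff, mem_Iic, mem_Iio] at hz ⊢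
        refine ⟨hz.1, ?_⟩
        by_contra hlt
        push Not at hlt
        exact absurd (hm' (show z ∈ S ∩ Iio x from hz) hlt.le) (not_le.mpr hlt)
    have hsum : N x = M + d x := by
      by_cases hxS : x ∈ S
      · have : (hfin x).toFinset = insert x hfx.toFinset := by
          ext y
          simp only [Set.Finite.mem_toFinset, mem_inter_iff, mem_Iic, Finset.mem_insert, mem_Iio]
          constructor
          · rintro ⟨h1, h2⟩
            rcases h2.lt_or_eq with h | h
            · exact Or.inr ⟨h1, h⟩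
            · exact Or.inl h
          · rintro (h | ⟨h1, h2⟩)
            · rw [h]; exact ⟨hxS, le_rfl⟩
            · exact ⟨h1, h2.le⟩
        simp only [hN, this]
        rw [Finset.sum_insert (by simp), add_comm]
      · have hd : d x = 0 := by
          by_contra h
          exact hxS (by rw [hS]; exact ⟨hx, h⟩)
        have : (hfin x).toFinset = hfx.toFinset := by
          ext y
          simp only [Set.Finite.mem_toFinset, mem_inter_iff, mem_Iic, mem_Iio]
          constructor
          · rintro ⟨h1, h2⟩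
            refine ⟨h1, lt_of_le_of_ne h2 ?_⟩
            rintro rfl
            exact hxS h1
          · rintro ⟨h1, h2⟩
            exact ⟨h1, h2.le⟩
        simp only [hN, this, hd, hM, add_zero]
    have hset : {n | κ n = x} = (Finset.Ico M (N x) : Set ℕ) := by
      ext n
      simp only [mem_ofPred_eq, Finset.coe_Ico, mem_Ico]
      constructor
      · intro h
        refine ⟨?_, (hkey n x).mp h.le⟩
        by_contra hlt
        push Not at hlt
        obtain ⟨y, hy, hyM⟩ := hex
        have : κ n ≤ y := (hkey n y).mpr (by rw [hyM]; exact hlt)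
        linarith
      · rintro ⟨h1, h2⟩
        refine le_antisymm ((hkey n x).mpr h2) ?_
        by_contra hlt
        push Not at hlt
        have := (hkey n _).mp le_rfl
        have := hle _ hlt
        omega
    rw [hset]
    refine ⟨Finset.finite_toSet _, ?_⟩
    rw [Set.ncard_coe_finset, Nat.card_Ico]
    omega

/-! ### Eigenfunctions of the figure-eight graph -/

lemma ode_form {k c : ℝ} (hk : 0 < k) {f : ℝ → ℝ} (h1 : ∀ x, HasDerivAt f (deriv f x) x)
    (h2 : ∀ x, HasDerivAt (deriv f) (-(k ^ 2) * f x) x) :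
    ∀ x, f x = f c * Real.cos (k * (x - c)) + deriv f c / k * Real.sin (k * (x - c)) := by
  have harg : ∀ x, HasDerivAt (fun x => k * (x - c)) k x := by
    intro x
    simpa using ((hasDerivAt_id x).sub_const c).const_mul k
  have hP : ∀ x, HasDerivAt (fun x => f x * Real.cos (k * (x - c))
      - deriv f x / k * Real.sin (k * (x - c))) 0 x := by
    intro x
    have := ((h1 x).mul (harg x).cos).sub (((h2 x).div_const k).mul (harg x).sin)
    refine this.congr_deriv ?_
    field_simp
    ring
  have hQ : ∀ x, HasDerivAt (fun x => f x * Real.sin (k * (x - c))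
      + deriv f x / k * Real.cos (k * (x - c))) 0 x := by
    intro x
    have := ((h1 x).mul (harg x).sin).add (((h2 x).div_const k).mul (harg x).cos)
    refine this.congr_deriv ?_
    field_simp
    ring
  intro x
  have e1 := is_const_of_deriv_eq_zero (fun x => (hP x).differentiableAt)
    (fun x => (hP x).deriv) x c
  have e2 := is_const_of_deriv_eq_zero (fun x => (hQ x).differentiableAt)
    (fun x => (hQ x).deriv) x c
  simp only [sub_self, mul_zero, Real.cos_zero, Real.sin_zero, mul_one, sub_zero, zero_add]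
    at e1 e2
  have hcs := Real.sin_sq_add_cos_sq (k * (x - c))
  rw [← e1, ← e2]
  linear_combination (-(f x)) * hcs

lemma form_deriv (k c A B : ℝ) (x : ℝ) :
    HasDerivAt (fun x => A * Real.cos (k * (x - c)) + B * Real.sin (k * (x - c)))
      (k * (-A * Real.sin (k * (x - c)) + B * Real.cos (k * (x - c)))) x := by
  have harg : HasDerivAt (fun x => k * (x - c)) k x := by
    simpa using ((hasDerivAt_id x).sub_const c).const_mul k
  refine ((harg.cos.const_mul A).add (harg.sin.const_mul B)).congr_deriv ?_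
  ring

lemma form_deriv2 (k c A B : ℝ) (x : ℝ) :
    HasDerivAt (fun x => k * (-A * Real.sin (k * (x - c)) + B * Real.cos (k * (x - c))))
      (-(k ^ 2) * (A * Real.cos (k * (x - c)) + B * Real.sin (k * (x - c)))) x := by
  have harg : HasDerivAt (fun x => k * (x - c)) k x := by
    simpa using ((hasDerivAt_id x).sub_const c).const_mul k
  refine (((harg.sin.const_mul (-A)).add (harg.cos.const_mul B)).const_mul k).congr_deriv ?_
  ring

variable {ℓ : Bool → ℝ} {hℓ : ∀ b, 0 < ℓ b}

lemma mem_iff {k : ℝ} (hk : 0 < k) (F : Bool → ℝ → ℝ) :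
    F ∈ (figureEight ℓ hℓ).eigenspace k ↔
    ∃ A B : Bool → ℝ, (∀ b x, F b x = A b * Real.cos (k * (x - ℓ b / 2))
      + B b * Real.sin (k * (x - ℓ b / 2))) ∧
      (∀ b, B b * Real.sin (k * (ℓ b / 2)) = 0) ∧
      A false * Real.cos (k * (ℓ false / 2)) = A true * Real.cos (k * (ℓ true / 2)) ∧
      A false * Real.sin (k * (ℓ false / 2)) + A true * Real.sin (k * (ℓ true / 2)) = 0 := by
  have a0 : ∀ b, k * (0 - ℓ b / 2) = -(k * (ℓ b / 2)) := fun b => by ring
  have a1 : ∀ b, k * (ℓ b - ℓ b / 2) = k * (ℓ b / 2) := fun b => by ring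
  constructor
  · rintro ⟨h1, h2, ⟨φ, hφ⟩, h4⟩
    refine ⟨fun b => F b (ℓ b / 2), fun b => deriv (F b) (ℓ b / 2) / k,
      fun b x => ode_form hk (h1 b) (h2 b) x, ?_⟩
    set A : Bool → ℝ := fun b => F b (ℓ b / 2) with hA
    set B : Bool → ℝ := fun b => deriv (F b) (ℓ b / 2) / k with hB
    have hF : ∀ b, F b = fun x => A b * Real.cos (k * (x - ℓ b / 2))
      + B b * Real.sin (k * (x - ℓ b / 2)) := fun b =>
        funext fun x => ode_form hk (h1 b) (h2 b) x
    have hF' : ∀ b x, deriv (F b) x = k * (-A b * Real.sin (k * (x - ℓ b / 2))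
        + B b * Real.cos (k * (x - ℓ b / 2))) := fun b x => by
      rw [hF b]; exact (form_deriv k (ℓ b / 2) (A b) (B b) x).deriv
    have v0 : ∀ b, A b * Real.cos (k * (ℓ b / 2)) - B b * Real.sin (k * (ℓ b / 2)) = φ () := by
      intro b
      have := (hφ b).1
      rw [hF b] at this
      simp only [a0, Real.cos_neg, Real.sin_neg] at this
      rw [← this]; ring
    have v1 : ∀ b, A b * Real.cos (k * (ℓ b / 2)) + B b * Real.sin (k * (ℓ b / 2)) = φ () := by
      intro b
      have := (hφ b).2
      rw [hF b] at this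
      simp only [figureEight, a1] at this
      exact this
    refine ⟨fun b => by linarith [v0 b, v1 b], by linarith [v0 false, v1 false, v0 true, v1 true],
      ?_⟩
    have := h4 ()
    simp only [figureEight, Fintype.sum_bool, hF', a0, a1, if_true, Real.cos_neg, Real.sin_neg]
      at this
    have hk' : k ≠ 0 := hk.ne'
    have h5 : 2 * k * (A false * Real.sin (k * (ℓ false / 2))
        + A true * Real.sin (k * (ℓ true / 2))) = 0 := by linarith
    rcases mul_eq_zero.mp h5 with h | h
    · exact absurd h (by positivity)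
    · exact h
  · rintro ⟨A, B, hF, hB, hc, hs⟩
    have hF0 : ∀ b, F b = fun x => A b * Real.cos (k * (x - ℓ b / 2))
      + B b * Real.sin (k * (x - ℓ b / 2)) := fun b => funext fun x => hF b x
    have hF' : ∀ b, deriv (F b) = fun x => k * (-A b * Real.sin (k * (x - ℓ b / 2))
        + B b * Real.cos (k * (x - ℓ b / 2))) := fun b => by
      funext x
      rw [hF0 b]; exact (form_deriv k (ℓ b / 2) (A b) (B b) x).deriv
    refine ⟨fun b x => ?_, fun b x => ?_, ⟨fun _ => A false * Real.cos (k * (ℓ false / 2)),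
      fun b => ?_⟩, fun w => ?_⟩
    · rw [hF' b, hF0 b]; exact form_deriv k (ℓ b / 2) (A b) (B b) x
    · rw [hF' b, hF0 b]; exact form_deriv2 k (ℓ b / 2) (A b) (B b) x
    · rw [hF0 b]
      simp only [figureEight, a0, a1, Real.cos_neg, Real.sin_neg]
      have := hB b
      cases b
      · constructor <;> linarith
      · constructor <;> linarith
    · simp only [figureEight, Fintype.sum_bool, hF', a0, a1, Real.cos_neg, Real.sin_neg]
      simp only [if_true]
      linear_combination 2 * k * hs

lemma deg_eq (v : Unit) : (figureEight ℓ hℓ).deg v = 4 := by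
  have h : {e : Bool | True} = Set.univ := by
    ext e; simp
  simp only [MetricGraph.deg, figureEight]
  rw [h, Set.ncard_univ]
  simp

/-- The eigenfunctions for `k = 0` are constant. -/
lemma mem_zero_iff (F : Bool → ℝ → ℝ) :
    F ∈ (figureEight ℓ hℓ).eigenspace 0 ↔ ∃ c : ℝ, F = fun _ _ => c := by
  constructor
  · rintro ⟨h1, h2, ⟨φ, hφ⟩, -⟩
    refine ⟨φ (), funext fun b => ?_⟩
    have hd : ∀ x, deriv (F b) x = deriv (F b) 0 := fun x =>
      is_const_of_deriv_eq_zero (fun x => (h2 b x).differentiableAt)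
        (fun x => by rw [(h2 b x).deriv]; ring) x 0
    have hg : ∀ x, HasDerivAt (fun x => F b x - deriv (F b) 0 * x) 0 x := by
      intro x
      refine ((h1 b x).sub ((hasDerivAt_id x).const_mul (deriv (F b) 0))).congr_deriv ?_
      rw [hd x]; ring
    have hc : ∀ x, F b x - deriv (F b) 0 * x = F b 0 - deriv (F b) 0 * 0 := fun x =>
      is_const_of_deriv_eq_zero (fun x => (hg x).differentiableAt) (fun x => (hg x).deriv) x 0
    have e0 := (hφ b).1
    have e1 := (hφ b).2
    simp only [figureEight] at e1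
    have e2 := hc (ℓ b)
    have e3 : deriv (F b) 0 * ℓ b = 0 := by
      rw [e1, e0] at e2; linarith
    have e4 : deriv (F b) 0 = 0 := (mul_eq_zero.mp e3).resolve_right (hℓ b).ne'
    funext x
    have := hc x
    rw [e4, e0] at this
    linarith
  · rintro ⟨c, rfl⟩
    refine ⟨fun e x => ?_, fun e x => ?_, ⟨fun _ => c, fun e => ⟨rfl, rfl⟩⟩, fun w => ?_⟩
    · simpa using hasDerivAt_const x c
    · have h0 : deriv (fun _ : ℝ => c) = fun _ => 0 := by funext y; simp
      rw [h0]
      simpa using hasDerivAt_const x (0 : ℝ)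
    · simp [figureEight]

/-- If `sin (k ℓ_b / 2) = 0` then there is an eigenfunction supported on the loop `b`. -/
lemma loop_mem {k : ℝ} (hk : 0 < k) (b : Bool) (h : Real.sin (k * (ℓ b / 2)) = 0) :
    (fun b' x => if b' = b then Real.sin (k * (x - ℓ b / 2)) else 0) ∈
      (figureEight ℓ hℓ).eigenspace k := by
  rw [mem_iff hk]
  refine ⟨fun _ => 0, fun b' => if b' = b then 1 else 0, fun b' x => ?_, fun b' => ?_, by simp,
    by simp⟩
  · by_cases hb : b' = b
    · subst hb; simp
    · simp [hb]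
  · by_cases hb : b' = b
    · subst hb; simp [h]
    · simp [hb]

lemma loop_ne_zero {k : ℝ} (hk : 0 < k) (b : Bool) :
    (fun b' x => if b' = b then Real.sin (k * (x - ℓ b / 2)) else 0 : Bool → ℝ → ℝ) ≠ 0 := by
  intro h
  have h1 := congrFun (congrFun h b) (ℓ b / 2 + Real.pi / 2 / k)
  simp only [if_true, Pi.zero_apply] at h1
  have h2 : k * (ℓ b / 2 + Real.pi / 2 / k - ℓ b / 2) = Real.pi / 2 := by
    field_simp
    ring
  rw [h2, Real.sin_pi_div_two] at h1
  exact one_ne_zero h1

/-- What genericity means on the figure-eight graph. -/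
lemma generic_form {κ : ℕ → ℝ} (hκ : (figureEight ℓ hℓ).IsSpectrum κ) {n : ℕ}
    (hn : n ∈ (figureEight ℓ hℓ).generic κ) :
    0 < κ n ∧ (∀ b, Real.sin (κ n * (ℓ b / 2)) ≠ 0) ∧
    Real.sin (κ n * (ℓ false / 2) + κ n * (ℓ true / 2)) = 0 := by
  obtain ⟨hn1, hn2⟩ := hn
  have hk : 0 < κ n := by
    refine lt_of_le_of_ne (hκ.nonneg n) ?_
    intro h0
    rw [← h0] at hn2
    have hmem : (fun _ _ => (1 : ℝ) : Bool → ℝ → ℝ) ∈ (figureEight ℓ hℓ).eigenspace 0 :=
      (mem_zero_iff _).mpr ⟨1, rfl⟩
    have hne : (fun _ _ => (1 : ℝ) : Bool → ℝ → ℝ) ≠ 0 := by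
      intro h
      have := congrFun (congrFun h false) 0
      simp at this
    have := ((hn2 _ hmem hne).2 false).1 (by rw [deg_eq]; norm_num)
    simp at this
  have hs : ∀ b, Real.sin (κ n * (ℓ b / 2)) ≠ 0 := by
    intro b h
    have h1 := ((hn2 _ (loop_mem hk b h) (loop_ne_zero hk b)).1 b).1
    simp only [if_true] at h1
    apply h1
    have h2 : κ n * (0 - ℓ b / 2) = -(κ n * (ℓ b / 2)) := by ring
    rw [h2, Real.sin_neg, h, neg_zero]
  refine ⟨hk, hs, ?_⟩
  obtain ⟨⟨F, hF⟩, hFne, -⟩ := finrank_eq_one_iff'.mp hn1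
  have hF0 : F ≠ 0 := fun h => hFne (Subtype.ext h)
  have hg := hn2 F hF hF0
  obtain ⟨A, B, hAB, hB, hc, hss⟩ := (mem_iff hk F).mp hF
  have hB0 : ∀ b, B b = 0 := fun b => (mul_eq_zero.mp (hB b)).resolve_right (hs b)
  have hval : ∀ b, A b * Real.cos (κ n * (ℓ b / 2)) ≠ 0 := by
    intro b
    have h1 := (hg.1 b).1
    rw [hAB b, hB0 b] at h1
    have h2 : κ n * (0 - ℓ b / 2) = -(κ n * (ℓ b / 2)) := by ring
    rw [h2, Real.cos_neg] at h1
    simpa using h1
  rw [Real.sin_add]
  have h3 : A false * Real.cos (κ n * (ℓ false / 2)) * (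
      Real.sin (κ n * (ℓ false / 2)) * Real.cos (κ n * (ℓ true / 2))
      + Real.cos (κ n * (ℓ false / 2)) * Real.sin (κ n * (ℓ true / 2))) = 0 := by
    linear_combination Real.cos (κ n * (ℓ false / 2)) * Real.cos (κ n * (ℓ true / 2)) * hss
      + Real.cos (κ n * (ℓ false / 2)) * Real.sin (κ n * (ℓ true / 2)) * hc
  exact (mul_eq_zero.mp h3).resolve_left (hval false)

/-- The generic eigenfunctions are multiples of cosines around the midpoints. -/
lemma generic_fun {κ : ℕ → ℝ} (hκ : (figureEight ℓ hℓ).IsSpectrum κ) {n : ℕ}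
    (hn : n ∈ (figureEight ℓ hℓ).generic κ) {F : Bool → ℝ → ℝ}
    (hF : F ∈ (figureEight ℓ hℓ).eigenspace (κ n)) (hF0 : F ≠ 0) :
    ∃ A : Bool → ℝ, (∀ b, A b ≠ 0) ∧ ∀ b x, F b x = A b * Real.cos (κ n * (x - ℓ b / 2)) := by
  obtain ⟨hk, hs, -⟩ := generic_form hκ hn
  have hg := hn.2 F hF hF0
  obtain ⟨A, B, hAB, hB, -, -⟩ := (mem_iff hk F).mp hF
  have hB0 : ∀ b, B b = 0 := fun b => (mul_eq_zero.mp (hB b)).resolve_right (hs b)
  refine ⟨A, fun b hA => ?_, fun b x => by rw [hAB b, hB0 b]; ring⟩
  apply (hg.1 b).1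
  rw [hAB b, hB0 b, hA]
  ring

/-- The Neumann points on a loop that carries `A cos (k (x - L / 2))`. -/
lemma points {k L A : ℝ} (hk : 0 < k) (hL : 0 < L) (hA : A ≠ 0)
    (hs : Real.sin (k * (L / 2)) ≠ 0) {f : ℝ → ℝ}
    (hf : ∀ x, f x = A * Real.cos (k * (x - L / 2))) :
    ∃ (θ : ℝ) (m : ℤ), 0 < θ ∧ θ < Real.pi ∧ k * (L / 2) = θ + m * Real.pi ∧
      IsLeast {x ∈ Ioo 0 L | deriv f x = 0} (θ / k) ∧
      IsGreatest {x ∈ Ioo 0 L | deriv f x = 0} (L - θ / k) := by
  have hpi := Real.pi_pos
  set y := k * (L / 2) with hy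
  have hy0 : 0 < y := by positivity
  set m : ℤ := ⌊y / Real.pi⌋ with hm
  have hm0 : 0 ≤ m := Int.floor_nonneg.mpr (by positivity)
  have hm1 : (m : ℝ) * Real.pi ≤ y := by
    have := Int.floor_le (y / Real.pi)
    rw [le_div_iff₀ hpi] at this
    exact this
  have hm2 : y < (m + 1) * Real.pi := by
    have := Int.lt_floor_add_one (y / Real.pi)
    rw [div_lt_iff₀ hpi] at this
    exact this
  set θ := y - m * Real.pi with hθ
  have hθ1 : θ < Real.pi := by linarith
  have hθ0 : 0 < θ := by
    refine lt_of_le_of_ne (by linarith) ?_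
    intro h
    apply hs
    have : y = m * Real.pi := by linarith
    rw [this]
    exact Real.sin_int_mul_pi m
  have hderiv : ∀ x, deriv f x = 0 ↔ Real.sin (k * (x - L / 2)) = 0 := by
    intro x
    have hf' : f = fun x => A * Real.cos (k * (x - L / 2)) + 0 * Real.sin (k * (x - L / 2)) := by
      funext x; rw [hf x]; ring
    rw [hf', (form_deriv k (L / 2) A 0 x).deriv]
    constructor
    · intro h
      have h1 : (k * A) * Real.sin (k * (x - L / 2)) = 0 := by linarith
      exact (mul_eq_zero.mp h1).resolve_left (mul_ne_zero hk.ne' hA)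
    · intro h
      rw [h]; ring
  have hmR : (0 : ℝ) ≤ m := by exact_mod_cast hm0
  have hθy : θ ≤ y := by
    have : 0 ≤ (m : ℝ) * Real.pi := by positivity
    linarith
  have hkL : θ / k < L := by
    rw [div_lt_iff₀ hk]
    have : y < k * L := by rw [hy]; nlinarith
    linarith
  have hθk : 0 < θ / k := by positivity
  -- membership and extremality at the left end
  have hmem : deriv f (θ / k) = 0 := by
    rw [hderiv]
    have : k * (θ / k - L / 2) = -(m * Real.pi) := by
      field_simp
      rw [hθ, hy]; ring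
    rw [this, Real.sin_neg, Real.sin_int_mul_pi, neg_zero]
  have hlow : ∀ x, 0 < x → x < θ / k → deriv f x ≠ 0 := by
    intro x hx hxθ h
    rw [hderiv] at h
    have h1 : k * x < θ := by
      rw [lt_div_iff₀ hk] at hxθ; linarith
    have h2 : 0 < k * x := by positivity
    have h3 : k * (x - L / 2) = (k * x - θ) - m * Real.pi := by
      rw [hθ, hy]; ring
    rw [h3, Real.sin_sub_int_mul_pi] at h
    have h4 : Real.sin (k * x - θ) = 0 := by
      rcases mul_eq_zero.mp h with h5 | h5
      · exact absurd h5 (zpow_ne_zero _ (by norm_num))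
      · exact h5
    have h6 : Real.sin (θ - k * x) = 0 := by
      rw [← neg_sub, Real.sin_neg, h4, neg_zero]
    have h7 : 0 < Real.sin (θ - k * x) := Real.sin_pos_of_pos_of_lt_pi (by linarith) (by linarith)
    linarith
  have hsym : ∀ x, deriv f (L - x) = 0 ↔ deriv f x = 0 := by
    intro x
    rw [hderiv, hderiv]
    have : k * (L - x - L / 2) = -(k * (x - L / 2)) := by ring
    rw [this, Real.sin_neg, neg_eq_zero]
  refine ⟨θ, m, hθ0, hθ1, by rw [hθ]; ring, ⟨⟨⟨hθk, hkL⟩, hmem⟩, ?_⟩,
    ⟨⟨⟨by linarith, by linarith⟩, (hsym _).mpr hmem⟩, ?_⟩⟩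
  · rintro x ⟨⟨hx0, hxL⟩, hx⟩
    by_contra hlt
    push Not at hlt
    exact hlow x hx0 hlt hx
  · rintro x ⟨⟨hx0, hxL⟩, hx⟩
    by_contra hlt
    push Not at hlt
    exact hlow (L - x) (by linarith) (by linarith) ((hsym x).mpr hx)

/-- The wavelength capacity of every generic eigenfunction is `2`. -/
lemma capacity_eq {κ : ℕ → ℝ} (hκ : (figureEight ℓ hℓ).IsSpectrum κ) {n : ℕ}
    (hn : n ∈ (figureEight ℓ hℓ).generic κ) {F : Bool → ℝ → ℝ}
    (hF : F ∈ (figureEight ℓ hℓ).eigenspace (κ n)) (hF0 : F ≠ 0) :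
    κ n * (figureEight ℓ hℓ).domainLength F () / Real.pi = 2 := by
  obtain ⟨hk, hs, hsum⟩ := generic_form hκ hn
  obtain ⟨A, hA, hAF⟩ := generic_fun hκ hn hF hF0
  have hp := fun b => points hk (hℓ b) (hA b) (hs b) (hAF b)
  choose θ m hθ0 hθ1 hθm hleast hgreat using hp
  have hnp : ∀ b, (figureEight ℓ hℓ).neumannPoints F b = {x ∈ Ioo 0 (ℓ b) | deriv (F b) x = 0} :=
    fun b => rfl
  have hne : ∀ b, (figureEight ℓ hℓ).neumannPoints F b ≠ ∅ := fun b => by
    rw [hnp b]; exact (Set.nonempty_iff_ne_empty.mp ⟨_, (hleast b).1⟩)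
  have hsame : ∀ v w, (figureEight ℓ hℓ).SameDomain F v w := by
    intro v w
    have : v = w := Subsingleton.elim _ _
    rw [this]
    exact Relation.EqvGen.refl _
  have hlen : (figureEight ℓ hℓ).domainLength F () = 2 * (θ false + θ true) / κ n := by
    unfold MetricGraph.domainLength
    rw [Fintype.sum_bool, if_neg (hne true), if_neg (hne false), if_pos (hsame _ _),
      if_pos (hsame _ _), if_pos (hsame _ _), if_pos (hsame _ _), hnp, hnp,
      (hleast true).csInf_eq, (hgreat true).csSup_eq, (hleast false).csInf_eq,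
      (hgreat false).csSup_eq]
    simp only [figureEight]
    field_simp
    ring
  have hpi := Real.pi_pos
  have hsin : Real.sin (θ false + θ true) = 0 := by
    have h1 : κ n * (ℓ false / 2) + κ n * (ℓ true / 2)
        = (θ false + θ true) + ((m false + m true : ℤ) : ℝ) * Real.pi := by
      rw [hθm false, hθm true]; push_cast; ring
    rw [h1, Real.sin_add_int_mul_pi] at hsum
    rcases mul_eq_zero.mp hsum with h5 | h5
    · exact absurd h5 (zpow_ne_zero _ (by norm_num))
    · exact h5
  obtain ⟨j, hj⟩ := Real.sin_eq_zero_iff.mp hsin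
  have h0 := hθ0 false
  have h0' := hθ0 true
  have h1 := hθ1 false
  have h1' := hθ1 true
  have hj0 : 0 < j := by
    by_contra h
    push Not at h
    have : (j : ℝ) ≤ 0 := by exact_mod_cast h
    nlinarith
  have hj1 : j < 2 := by
    by_contra h
    push Not at h
    have : (2 : ℝ) ≤ j := by exact_mod_cast h
    nlinarith
  have hj2 : j = 1 := by omega
  rw [hj2] at hj
  rw [hlen]
  have : θ false + θ true = Real.pi := by rw [← hj]; simp
  rw [this]
  have := hk.ne'
  field_simp

lemma eig_bot {k : ℝ} (hk : 0 < k) (hs : ∀ b, Real.sin (k * (ℓ b / 2)) ≠ 0)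
    (hsum : Real.sin (k * ((ℓ false + ℓ true) / 2)) ≠ 0) :
    (figureEight ℓ hℓ).eigenspace k = ⊥ := by
  rw [eq_bot_iff]
  intro F hF
  obtain ⟨A, B, hAB, hB, hc, hss⟩ := (mem_iff hk F).mp hF
  have hB0 : ∀ b, B b = 0 := fun b => (mul_eq_zero.mp (hB b)).resolve_right (hs b)
  have h1 : k * ((ℓ false + ℓ true) / 2) = k * (ℓ false / 2) + k * (ℓ true / 2) := by ring
  rw [h1, Real.sin_add] at hsum
  have hA0 : A false = 0 := by
    have h3 : A false * (Real.sin (k * (ℓ false / 2)) * Real.cos (k * (ℓ true / 2))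
        + Real.cos (k * (ℓ false / 2)) * Real.sin (k * (ℓ true / 2))) = 0 := by
      linear_combination Real.cos (k * (ℓ true / 2)) * hss
        + Real.sin (k * (ℓ true / 2)) * hc
    exact (mul_eq_zero.mp h3).resolve_right hsum
  have hA1 : A true = 0 := by
    rw [hA0, zero_mul, zero_add] at hss
    exact (mul_eq_zero.mp hss).resolve_right (hs true)
  rw [Submodule.mem_bot]
  funext b x
  rw [hAB b x, hB0 b]
  cases b
  · rw [hA0]; simp
  · rw [hA1]; simp

lemma eig_one {k : ℝ} (hk : 0 < k) (hs : ∀ b, Real.sin (k * (ℓ b / 2)) ≠ 0)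
    (hc : ∀ b, Real.cos (k * (ℓ b / 2)) ≠ 0)
    (hsum : Real.sin (k * ((ℓ false + ℓ true) / 2)) = 0) :
    Module.finrank ℝ ((figureEight ℓ hℓ).eigenspace k) = 1 ∧
    ∀ F ∈ (figureEight ℓ hℓ).eigenspace k, F ≠ 0 →
      (∀ e, F e 0 ≠ 0 ∧ F e (ℓ e) ≠ 0) ∧ ∀ e, deriv (F e) 0 ≠ 0 ∧ deriv (F e) (ℓ e) ≠ 0 := by
  have h1 : k * ((ℓ false + ℓ true) / 2) = k * (ℓ false / 2) + k * (ℓ true / 2) := by ring
  rw [h1, Real.sin_add] at hsum
  set F₀ : Bool → ℝ → ℝ := fun b x => 1 / Real.cos (k * (ℓ b / 2)) *
    Real.cos (k * (x - ℓ b / 2)) with hF₀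
  have hmem : F₀ ∈ (figureEight ℓ hℓ).eigenspace k := by
    rw [mem_iff hk]
    refine ⟨fun b => 1 / Real.cos (k * (ℓ b / 2)), fun _ => 0, fun b x => by simp [hF₀], by simp,
      ?_, ?_⟩
    · show 1 / Real.cos (k * (ℓ false / 2)) * Real.cos (k * (ℓ false / 2))
        = 1 / Real.cos (k * (ℓ true / 2)) * Real.cos (k * (ℓ true / 2))
      rw [one_div_mul_cancel (hc false), one_div_mul_cancel (hc true)]
    · show 1 / Real.cos (k * (ℓ false / 2)) * Real.sin (k * (ℓ false / 2))
        + 1 / Real.cos (k * (ℓ true / 2)) * Real.sin (k * (ℓ true / 2)) = 0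
      have e1 := hc false
      have e2 := hc true
      generalize Real.cos (k * (ℓ false / 2)) = c0 at *
      generalize Real.cos (k * (ℓ true / 2)) = c1 at *
      generalize Real.sin (k * (ℓ false / 2)) = s0 at *
      generalize Real.sin (k * (ℓ true / 2)) = s1 at *
      field_simp
      linarith
  have a0 : ∀ b, k * (0 - ℓ b / 2) = -(k * (ℓ b / 2)) := fun b => by ring
  have a1 : ∀ b, k * (ℓ b - ℓ b / 2) = k * (ℓ b / 2) := fun b => by ring
  have hspan : ∀ F ∈ (figureEight ℓ hℓ).eigenspace k, ∃ c : ℝ, F = c • F₀ := by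
    intro F hF
    obtain ⟨A, B, hAB, hB, hcc, hss⟩ := (mem_iff hk F).mp hF
    have hB0 : ∀ b, B b = 0 := fun b => (mul_eq_zero.mp (hB b)).resolve_right (hs b)
    refine ⟨A false * Real.cos (k * (ℓ false / 2)), ?_⟩
    funext b x
    rw [hAB b x, hB0 b]
    simp only [Pi.smul_apply, smul_eq_mul, hF₀, zero_mul, add_zero]
    cases b
    · rw [show A false * Real.cos (k * (ℓ false / 2)) * (1 / Real.cos (k * (ℓ false / 2))
        * Real.cos (k * (x - ℓ false / 2))) = A false * Real.cos (k * (x - ℓ false / 2))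
        * (1 / Real.cos (k * (ℓ false / 2)) * Real.cos (k * (ℓ false / 2))) by ring,
        one_div_mul_cancel (hc false), mul_one]
    · rw [hcc, show A true * Real.cos (k * (ℓ true / 2)) * (1 / Real.cos (k * (ℓ true / 2))
        * Real.cos (k * (x - ℓ true / 2))) = A true * Real.cos (k * (x - ℓ true / 2))
        * (1 / Real.cos (k * (ℓ true / 2)) * Real.cos (k * (ℓ true / 2))) by ring,
        one_div_mul_cancel (hc true), mul_one]
  have hF0val : ∀ b, F₀ b 0 = 1 := by
    intro b
    simp only [hF₀, a0, Real.cos_neg]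
    rw [one_div, inv_mul_cancel₀ (hc b)]
  have hF0val' : ∀ b, F₀ b (ℓ b) = 1 := by
    intro b
    simp only [hF₀, a1]
    rw [one_div, inv_mul_cancel₀ (hc b)]
  have hF0ne : F₀ ≠ 0 := by
    intro h
    have := hF0val false
    rw [h] at this
    simp at this
  have hder : ∀ b x, deriv (F₀ b) x = k * (-(1 / Real.cos (k * (ℓ b / 2)))
      * Real.sin (k * (x - ℓ b / 2))) := by
    intro b x
    have hf' : F₀ b = fun x => 1 / Real.cos (k * (ℓ b / 2)) * Real.cos (k * (x - ℓ b / 2))
        + 0 * Real.sin (k * (x - ℓ b / 2)) := by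
      funext x; simp [hF₀]
    rw [hf', (form_deriv k (ℓ b / 2) _ 0 x).deriv]
    ring
  refine ⟨finrank_eq_one_iff'.mpr ⟨⟨F₀, hmem⟩, fun h => hF0ne (congrArg Subtype.val h), ?_⟩, ?_⟩
  · rintro ⟨F, hF⟩
    obtain ⟨c, hc'⟩ := hspan F hF
    exact ⟨c, Subtype.ext hc'.symm⟩
  · intro F hF hne
    obtain ⟨c, rfl⟩ := hspan F hF
    have hc0 : c ≠ 0 := by
      rintro rfl
      exact hne (zero_smul _ _)
    have hderc : ∀ b x, deriv ((c • F₀) b) x = c * deriv (F₀ b) x := by
      intro b x
      have : (c • F₀) b = fun x => c * F₀ b x := rfl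
      rw [this, deriv_const_mul_field]
    refine ⟨fun b => ⟨?_, ?_⟩, fun b => ⟨?_, ?_⟩⟩
    · simp only [Pi.smul_apply, smul_eq_mul, hF0val, mul_one]; exact hc0
    · simp only [Pi.smul_apply, smul_eq_mul, hF0val', mul_one]; exact hc0
    · rw [hderc, hder, a0, Real.sin_neg]
      exact mul_ne_zero hc0 (mul_ne_zero hk.ne' (mul_ne_zero (neg_ne_zero.mpr
        (one_div_ne_zero (hc b))) (neg_ne_zero.mpr (hs b))))
    · rw [hderc, hder, a1]
      exact mul_ne_zero hc0 (mul_ne_zero hk.ne' (mul_ne_zero (neg_ne_zero.mpr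
        (one_div_ne_zero (hc b))) (hs b)))

lemma eig_fin {k : ℝ} (hk : 0 ≤ k) : FiniteDimensional ℝ ((figureEight ℓ hℓ).eigenspace k) := by
  rcases hk.eq_or_lt with h | hk
  · subst h
    have hle : (figureEight ℓ hℓ).eigenspace 0 ≤
        Submodule.span ℝ {(fun _ _ => (1 : ℝ) : Bool → ℝ → ℝ)} := by
      intro F hF
      obtain ⟨c, rfl⟩ := (mem_zero_iff F).mp hF
      rw [Submodule.mem_span_singleton]
      exact ⟨c, by funext b x; simp⟩
    have : FiniteDimensional ℝ (Submodule.span ℝ {(fun _ _ => (1 : ℝ) : Bool → ℝ → ℝ)}) :=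
      FiniteDimensional.span_of_finite ℝ (Set.finite_singleton _)
    exact Submodule.finiteDimensional_of_le hle
  · set C : Bool → (Bool → ℝ → ℝ) := fun b b' x =>
      if b' = b then Real.cos (k * (x - ℓ b / 2)) else 0 with hC
    set D : Bool → (Bool → ℝ → ℝ) := fun b b' x =>
      if b' = b then Real.sin (k * (x - ℓ b / 2)) else 0 with hD
    set T : Set (Bool → ℝ → ℝ) := Set.range C ∪ Set.range D with hT
    have hle : (figureEight ℓ hℓ).eigenspace k ≤ Submodule.span ℝ T := by
      intro F hF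
      obtain ⟨A, B, hAB, -, -, -⟩ := (mem_iff hk F).mp hF
      have hFe : F = (A false • C false + A true • C true) + (B false • D false + B true • D true) := by
        funext b x
        rw [hAB b x]
        simp only [Pi.add_apply, Pi.smul_apply, smul_eq_mul, hC, hD]
        cases b <;> simp
      rw [hFe]
      refine Submodule.add_mem _ (Submodule.add_mem _ ?_ ?_) (Submodule.add_mem _ ?_ ?_)
      · exact Submodule.smul_mem _ _ (Submodule.subset_span (Or.inl ⟨false, rfl⟩))
      · exact Submodule.smul_mem _ _ (Submodule.subset_span (Or.inl ⟨true, rfl⟩))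
      · exact Submodule.smul_mem _ _ (Submodule.subset_span (Or.inr ⟨false, rfl⟩))
      · exact Submodule.smul_mem _ _ (Submodule.subset_span (Or.inr ⟨true, rfl⟩))
    have : FiniteDimensional ℝ (Submodule.span ℝ T) :=
      FiniteDimensional.span_of_finite ℝ ((Set.finite_range C).union (Set.finite_range D))
    exact Submodule.finiteDimensional_of_le hle

/-! ### The generic wave numbers `2 π m / (ℓ₀ + ℓ₁)` -/

lemma irr (hind : LinearIndependent ℚ ℓ) {a b : ℤ} (h : (a : ℝ) * ℓ false + b * ℓ true = 0) :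
    a = 0 ∧ b = 0 := by
  have h1 := Fintype.linearIndependent_iff.mp hind (fun i => if i then (b : ℚ) else (a : ℚ)) (by
    rw [Fintype.sum_bool]
    simp only [if_true, Bool.false_eq_true, if_false, Rat.smul_def, Rat.cast_intCast]
    linarith)
  have h2 := h1 false
  have h3 := h1 true
  simp only [Bool.false_eq_true, if_false, if_true] at h2 h3
  exact ⟨by exact_mod_cast h2, by exact_mod_cast h3⟩

lemma special (hℓ : ∀ b, 0 < ℓ b) (hind : LinearIndependent ℚ ℓ) {m : ℕ} (hm : 1 ≤ m) :
    let k := 2 * Real.pi * m / (ℓ false + ℓ true)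
    0 < k ∧ (∀ b, Real.sin (k * (ℓ b / 2)) ≠ 0) ∧ (∀ b, Real.cos (k * (ℓ b / 2)) ≠ 0) ∧
      Real.sin (k * ((ℓ false + ℓ true) / 2)) = 0 := by
  intro k
  have hpi := Real.pi_pos
  have hL : 0 < ℓ false + ℓ true := add_pos (hℓ _) (hℓ _)
  have hmR : (0 : ℝ) < m := by exact_mod_cast hm
  have hk : 0 < k := by positivity
  have hkb : ∀ b, k * (ℓ b / 2) * (ℓ false + ℓ true) = Real.pi * (m * ℓ b) := by
    intro b
    simp only [k]
    field_simp
  refine ⟨hk, fun b h => ?_, fun b h => ?_, ?_⟩
  · obtain ⟨j, hj⟩ := Real.sin_eq_zero_iff.mp h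
    have h1 := hkb b
    rw [← hj] at h1
    have h2 : Real.pi * ((j : ℝ) * (ℓ false + ℓ true)) = Real.pi * (m * ℓ b) := by linarith
    have h3 : (j : ℝ) * (ℓ false + ℓ true) = m * ℓ b := mul_left_cancel₀ hpi.ne' h2
    cases b
    · obtain ⟨e1, e2⟩ := irr hind (a := j - m) (b := j) (by push_cast; linarith)
      omega
    · obtain ⟨e1, e2⟩ := irr hind (a := j) (b := j - m) (by push_cast; linarith)
      omega
  · obtain ⟨j, hj⟩ := Real.cos_eq_zero_iff.mp h
    have h1 := hkb b
    rw [hj] at h1
    have h2 : Real.pi * ((2 * (j : ℝ) + 1) * (ℓ false + ℓ true)) = Real.pi * (2 * m * ℓ b) := by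
      linarith
    have h3 : (2 * (j : ℝ) + 1) * (ℓ false + ℓ true) = 2 * m * ℓ b := mul_left_cancel₀ hpi.ne' h2
    cases b
    · obtain ⟨e1, e2⟩ := irr hind (a := 2 * j + 1 - 2 * m) (b := 2 * j + 1) (by push_cast; linarith)
      omega
    · obtain ⟨e1, e2⟩ := irr hind (a := 2 * j + 1) (b := 2 * j + 1 - 2 * m) (by push_cast; linarith)
      omega
  · have : k * ((ℓ false + ℓ true) / 2) = m * Real.pi := by
      simp only [k]
      field_simp
    rw [this]
    exact Real.sin_nat_mul_pi m

lemma sin_zero_finite {c : ℝ} (hc : 0 < c) (x : ℝ) :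
    {y : ℝ | 0 ≤ y ∧ y ≤ x ∧ Real.sin (y * (c / 2)) = 0}.Finite := by
  have hpi := Real.pi_pos
  refine ((Set.finite_Icc (0 : ℤ) ⌈x * c / (2 * Real.pi)⌉).image
    (fun j : ℤ => 2 * Real.pi * j / c)).subset ?_
  rintro y ⟨hy0, hyx, hy⟩
  obtain ⟨j, hj⟩ := Real.sin_eq_zero_iff.mp hy
  have hj' : (j : ℝ) = y * c / (2 * Real.pi) := by
    field_simp
    linarith
  refine ⟨j, ⟨?_, ?_⟩, ?_⟩
  · have : (0 : ℝ) ≤ j := by rw [hj']; positivity
    exact_mod_cast this
  · have : (j : ℝ) ≤ (⌈x * c / (2 * Real.pi)⌉ : ℝ) := by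
      refine le_trans ?_ (Int.le_ceil _)
      rw [hj']
      gcongr
    exact_mod_cast this
  · simp only
    rw [hj']
    field_simp

lemma exists_spectrum (hind : LinearIndependent ℚ ℓ) :
    ∃ κ, (figureEight ℓ hℓ).IsSpectrum κ := by
  have hpi := Real.pi_pos
  have hL : 0 < ℓ false + ℓ true := add_pos (hℓ _) (hℓ _)
  obtain ⟨κ, h1, h2, h3⟩ := exists_enum
    (fun y => Module.finrank ℝ ((figureEight ℓ hℓ).eigenspace y)) _ rfl (by
      intro x
      refine ((Set.finite_singleton (0 : ℝ)).union (((sin_zero_finite (hℓ false) x).union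
        (sin_zero_finite (hℓ true) x)).union (sin_zero_finite hL x))).subset ?_
      rintro y ⟨⟨hy0, hy⟩, hyx⟩
      rcases hy0.eq_or_lt with h | hy0'
      · exact Or.inl h.symm
      · right
        by_contra hcon
        apply hy
        have e0 : Real.sin (y * (ℓ false / 2)) ≠ 0 := fun h =>
          hcon (Or.inl (Or.inl ⟨hy0, hyx, h⟩))
        have e1 : Real.sin (y * (ℓ true / 2)) ≠ 0 := fun h =>
          hcon (Or.inl (Or.inr ⟨hy0, hyx, h⟩))
        have e2 : Real.sin (y * ((ℓ false + ℓ true) / 2)) ≠ 0 := fun h =>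
          hcon (Or.inr ⟨hy0, hyx, h⟩)
        rw [eig_bot hy0' (fun b => by cases b; exacts [e0, e1]) e2]
        exact finrank_bot ℝ _) (by
      refine Set.infinite_of_injective_forall_mem
        (f := fun m : ℕ => 2 * Real.pi * ((m + 1 : ℕ) : ℝ) / (ℓ false + ℓ true)) ?_ ?_
      · intro a b hab
        have : (2 * Real.pi * ((a + 1 : ℕ) : ℝ)) = 2 * Real.pi * ((b + 1 : ℕ) : ℝ) := by
          have h5 : 2 * Real.pi * ((a + 1 : ℕ) : ℝ) / (ℓ false + ℓ true)
            = 2 * Real.pi * ((b + 1 : ℕ) : ℝ) / (ℓ false + ℓ true) := hab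
          exact (div_left_inj' hL.ne').mp h5
        have h4 : ((a + 1 : ℕ) : ℝ) = ((b + 1 : ℕ) : ℝ) := mul_left_cancel₀ (by positivity) this
        have : a + 1 = b + 1 := by exact_mod_cast h4
        omega
      · intro m
        obtain ⟨a1, a2, a3, a4⟩ := special hℓ hind (m := m + 1) (by omega)
        refine ⟨a1.le, ?_⟩
        rw [(eig_one (hℓ := hℓ) a1 a2 a3 a4).1]
        norm_num)
  exact ⟨κ, h1, h2, fun k hk => eig_fin hk, fun k hk => (h3 k hk).1, fun k hk => (h3 k hk).2⟩

lemma generic_infinite (hind : LinearIndependent ℚ ℓ) {κ : ℕ → ℝ}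
    (hκ : (figureEight ℓ hℓ).IsSpectrum κ) : ((figureEight ℓ hℓ).generic κ).Infinite := by
  have hpi := Real.pi_pos
  have hL : 0 < ℓ false + ℓ true := add_pos (hℓ _) (hℓ _)
  have hex : ∀ m : ℕ, ∃ n, κ n = 2 * Real.pi * ((m + 1 : ℕ) : ℝ) / (ℓ false + ℓ true) := by
    intro m
    obtain ⟨a1, a2, a3, a4⟩ := special hℓ hind (m := m + 1) (by omega)
    have h1 := hκ.mult _ a1.le
    rw [(eig_one (hℓ := hℓ) a1 a2 a3 a4).1] at h1
    obtain ⟨n, hn⟩ := Set.nonempty_of_ncard_ne_zero (by rw [h1]; norm_num)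
    exact ⟨n, hn⟩
  choose f hf using hex
  refine Set.infinite_of_injective_forall_mem (f := f) ?_ ?_
  · intro a b hab
    have h0 : κ (f a) = κ (f b) := by rw [hab]
    rw [hf a, hf b] at h0
    have : (2 * Real.pi * ((a + 1 : ℕ) : ℝ)) = 2 * Real.pi * ((b + 1 : ℕ) : ℝ) := by
      exact (div_left_inj' hL.ne').mp h0
    have h4 : ((a + 1 : ℕ) : ℝ) = ((b + 1 : ℕ) : ℝ) := mul_left_cancel₀ (by positivity) this
    have : a + 1 = b + 1 := by exact_mod_cast h4
    omega
  · intro m
    obtain ⟨a1, a2, a3, a4⟩ := special hℓ hind (m := m + 1) (by omega)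
    obtain ⟨b1, b2⟩ := eig_one (hℓ := hℓ) a1 a2 a3 a4
    have hfm := hf m
    refine ⟨by rw [hfm]; exact b1, fun F hF hne => ?_⟩
    rw [hfm] at hF
    obtain ⟨c1, c2⟩ := b2 F hF hne
    exact ⟨c1, fun e => ⟨fun _ => (c2 e).1, fun _ => (c2 e).2⟩⟩

lemma exists_lengths : ∃ ℓ : Bool → ℝ, (∀ b, 0 < ℓ b) ∧ LinearIndependent ℚ ℓ := by
  refine ⟨fun b => if b then √2 else 1, fun b => by cases b <;> simp, ?_⟩
  rw [Fintype.linearIndependent_iff]
  intro g hg
  rw [Fintype.sum_bool] at hg
  simp only [if_true, Bool.false_eq_true, if_false, Rat.smul_def, mul_one] at hg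
  have h1 : g true = 0 := by
    by_contra h
    have h' : ((g true : ℚ) : ℝ) ≠ 0 := by exact_mod_cast h
    have h2 : √2 = ((-(g false) / g true : ℚ) : ℝ) := by
      push_cast
      field_simp
      linarith
    exact irrational_sqrt_two ⟨_, h2.symm⟩
  have h2 : g false = 0 := by
    rw [h1] at hg
    simp only [Rat.cast_zero, zero_mul, zero_add] at hg
    exact_mod_cast hg
  intro b
  cases b
  · exact h2
  · exact h1

lemma generic_nonzero {κ : ℕ → ℝ} {n : ℕ} (hn : n ∈ (figureEight ℓ hℓ).generic κ) :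
    ∃ F ∈ (figureEight ℓ hℓ).eigenspace (κ n), F ≠ 0 := by
  obtain ⟨⟨F, hF⟩, hFne, -⟩ := finrank_eq_one_iff'.mp hn.1
  exact ⟨F, hF, fun h => hFne (Subtype.ext h)⟩

lemma density {κ : ℕ → ℝ} (hind : LinearIndependent ℚ ℓ)
    (hκ : (figureEight ℓ hℓ).IsSpectrum κ) (a b : ℝ) [Decidable (a < 2 ∧ 2 < b)] :
    (figureEight ℓ hℓ).HasDensity κ ((figureEight ℓ hℓ).capacityIn κ () (Ioo a b))
      (if a < 2 ∧ 2 < b then 1 else 0) := by
  split_ifs with h
  · have hall : (figureEight ℓ hℓ).capacityIn κ () (Ioo a b) = (figureEight ℓ hℓ).generic κ := by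
      ext n
      constructor
      · exact fun hn => hn.1
      · intro hn
        refine ⟨hn, fun F hF hne => ?_⟩
        rw [capacity_eq hκ hn hF hne]
        exact h
    obtain ⟨n₀, hn₀⟩ := (generic_infinite hind hκ).nonempty
    refine tendsto_const_nhds.congr' ?_
    filter_upwards [eventually_ge_atTop n₀] with N hN
    rw [hall]
    have hfin : {n | n ∈ (figureEight ℓ hℓ).generic κ ∧ n ≤ N}.Finite :=
      (Set.finite_Iic N).subset fun n hn => hn.2
    have hne : {n | n ∈ (figureEight ℓ hℓ).generic κ ∧ n ≤ N}.Nonempty := ⟨n₀, hn₀, hN⟩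
    have hpos := (Set.ncard_pos hfin).mpr hne
    rw [div_self]
    exact_mod_cast hpos.ne'
  · have hnone : (figureEight ℓ hℓ).capacityIn κ () (Ioo a b) = ∅ := by
      rw [Set.eq_empty_iff_forall_notMem]
      rintro n ⟨hn, hn'⟩
      obtain ⟨F, hF, hne⟩ := generic_nonzero hn
      have := hn' F hF hne
      rw [capacity_eq hκ hn hF hne] at this
      exact h this
    refine tendsto_const_nhds.congr' ?_
    filter_upwards with N
    rw [hnone]
    simp

end Proof

open Classical in
/-- **The wavelength capacity on figure-eight graphs.** Two positive rationally independent lengths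
exist, and for all such lengths the figure-eight graph is a connected graph whose only vertex has
degree four; its spectrum can be listed, infinitely many eigenfunctions are generic, the wavelength
capacity at the vertex is `2` for every generic eigenfunction, and the set of the generic indices
whose wavelength capacity lies in `(a, b)` has density `1` in the generic indices if `2 ∈ (a, b)`
and density `0` otherwise. -/
theorem result :
    (∃ ℓ : Bool → ℝ, (∀ b, 0 < ℓ b) ∧ LinearIndependent ℚ ℓ) ∧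
    ∀ (ℓ : Bool → ℝ) (hℓ : ∀ b, 0 < ℓ b), LinearIndependent ℚ ℓ →
      (figureEight ℓ hℓ).Connected ∧ (figureEight ℓ hℓ).deg () = 4 ∧
      (∃ κ, (figureEight ℓ hℓ).IsSpectrum κ) ∧
      ∀ κ, (figureEight ℓ hℓ).IsSpectrum κ →
        ((figureEight ℓ hℓ).generic κ).Infinite ∧
        (∀ n ∈ (figureEight ℓ hℓ).generic κ, ∀ F ∈ (figureEight ℓ hℓ).eigenspace (κ n), F ≠ 0 →
          κ n * (figureEight ℓ hℓ).domainLength F () / Real.pi = 2) ∧
        ∀ a b : ℝ, (figureEight ℓ hℓ).HasDensity κ
          ((figureEight ℓ hℓ).capacityIn κ () (Ioo a b)) (if a < 2 ∧ 2 < b then 1 else 0) := by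
  refine ⟨exists_lengths, fun ℓ hℓ hind => ⟨?_, deg_eq (), exists_spectrum hind, fun κ hκ =>
    ⟨generic_infinite hind hκ, fun n hn F hF hne => capacity_eq hκ hn hF hne,
      fun a b => density hind hκ a b⟩⟩⟩
  intro v w
  have : v = w := Subsingleton.elim _ _
  rw [this]
  exact Relation.EqvGen.refl _

end Pool.Agent.Results.MP_ecbb05_mp.FigureEight
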